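import Pool.Agent.helper25.HY.MOB
import Mathlib.FieldTheory.KummerExtension

/-! Pure lemmas for the block mm: (MASS lemma) of MP_af9036_an: one step identity for `z ^ n`, bound of the other preimages. -/

set_option autoImplicit false

open Complex Metric Set Filter Topology

noncomputable section

namespace MMP

open HY (UD T S)

/-- product over the `n`-th roots. -/
theorem prod_sub (n : ℕ) (hn : 0 < n) (om : ℂ) (hom : IsPrimitiveRoot om n) (w e : ℂ) :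
    ∏ i ∈ Finset.range n, (w - om ^ i * e) = w ^ n - e ^ n := by
  have h := congrArg (Polynomial.eval w) (X_pow_sub_C_eq_prod hom hn (α := e) (a := e ^ n) rfl)
  rw [Polynomial.eval_prod] at h
  simp only [Polynomial.eval_sub, Polynomial.eval_pow, Polynomial.eval_X, Polynomial.eval_C] at h
  exact h.symm

/-- ONE STEP IDENTITY: `∏ T (ω^i e) w = T (e^n) (w^n)`. -/
theorem prod_T (n : ℕ) (hn : 0 < n) (om : ℂ) (hom : IsPrimitiveRoot om n) (e w : ℂ) :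
    ∏ i ∈ Finset.range n, T (om ^ i * e) w = T (e ^ n) (w ^ n) := by
  unfold T
  rw [Finset.prod_div_distrib, prod_sub n hn om hom w e]
  congr 1
  have hc : IsPrimitiveRoot ((starRingEnd ℂ) om) n :=
    hom.map_of_injective (f := starRingEnd ℂ) (RingHom.injective _)
  have h := prod_sub n hn ((starRingEnd ℂ) om) hc 1 ((starRingEnd ℂ) e * w)
  rw [one_pow, mul_pow, ← map_pow] at h
  rw [← h]
  apply Finset.prod_congr rfl
  intro i _
  rw [map_mul, map_pow]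
  ring

/-- norm form. -/
theorem PRD (n : ℕ) (hn : 0 < n) (om : ℂ) (hom : IsPrimitiveRoot om n) (e w : ℂ) :
    ∏ i ∈ Finset.range n, ‖T (om ^ i * e) w‖ = ‖T (e ^ n) (w ^ n)‖ := by
  rw [← prod_T n hn om hom e w, norm_prod]

theorem norm_om (n : ℕ) (hn : 0 < n) (om : ℂ) (hom : IsPrimitiveRoot om n) : ‖om‖ = 1 :=
  hom.norm'_eq_one hn.ne'

/-- Green function of the disc: `-log ‖T a x‖ ≤ (1 - ‖a‖²)(1 - ‖x‖²)/(2 ‖x - a‖²)`. -/
theorem green_le (a x : ℂ) (ha : ‖a‖ < 1) (hx : ‖x‖ < 1) (hne : x ≠ a) :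
    -Real.log ‖T a x‖ ≤ (1 - ‖a‖ ^ 2) * (1 - ‖x‖ ^ 2) / (2 * ‖x - a‖ ^ 2) := by
  have hd : 0 < ‖x - a‖ := norm_pos_iff.mpr (sub_ne_zero.mpr hne)
  have hq : 0 < ‖1 - (starRingEnd ℂ) a * x‖ := norm_pos_iff.mpr (HY.MOB_ne ha hx)
  have hT : ‖T a x‖ = ‖x - a‖ / ‖1 - (starRingEnd ℂ) a * x‖ := by unfold T; rw [norm_div]
  have hTpos : 0 < ‖T a x‖ := by rw [hT]; positivity
  have hid := HY.MOB_id a x
  have h1 : -Real.log ‖T a x‖ = Real.log ((‖T a x‖ ^ 2)⁻¹) / 2 := by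
    rw [Real.log_inv, Real.log_pow]
    push_cast
    ring
  have h2 : (‖T a x‖ ^ 2)⁻¹ = 1 + (1 - ‖a‖ ^ 2) * (1 - ‖x‖ ^ 2) / ‖x - a‖ ^ 2 := by
    rw [← hid, hT, div_pow, inv_div, sub_div, div_self (pow_ne_zero 2 hd.ne')]
    ring
  rw [h1, h2]
  have hpos : 0 < (‖T a x‖ ^ 2)⁻¹ := by positivity
  rw [h2] at hpos
  have h3 := Real.log_le_sub_one_of_pos hpos
  have h4 : (1 - ‖a‖ ^ 2) * (1 - ‖x‖ ^ 2) / (2 * ‖x - a‖ ^ 2) =
      ((1 - ‖a‖ ^ 2) * (1 - ‖x‖ ^ 2) / ‖x - a‖ ^ 2) / 2 := by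
    rw [div_div, mul_comm (2 : ℝ)]
  rw [h4]
  linarith

/-- lower bound for the Green function: `(1 - ‖a‖²)(1 - ‖x‖²)/8 ≤ -log ‖T a x‖`. -/
theorem green_ge (a x : ℂ) (ha : ‖a‖ < 1) (hx : ‖x‖ < 1) (hne : x ≠ a) :
    (1 - ‖a‖ ^ 2) * (1 - ‖x‖ ^ 2) / 8 ≤ -Real.log ‖T a x‖ := by
  have hd : 0 < ‖x - a‖ := norm_pos_iff.mpr (sub_ne_zero.mpr hne)
  have hq : 0 < ‖1 - (starRingEnd ℂ) a * x‖ := norm_pos_iff.mpr (HY.MOB_ne ha hx)
  have hT : ‖T a x‖ = ‖x - a‖ / ‖1 - (starRingEnd ℂ) a * x‖ := by unfold T; rw [norm_div]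
  have hTpos : 0 < ‖T a x‖ := by rw [hT]; positivity
  have hr := HY.MOB_ratio ha hx
  have h1 : -Real.log ‖T a x‖ = -Real.log (‖T a x‖ ^ 2) / 2 := by
    rw [Real.log_pow]
    push_cast
    ring
  have hsq : 0 < ‖T a x‖ ^ 2 := by positivity
  have h3 := Real.log_le_sub_one_of_pos hsq
  have hq2 : ‖1 - (starRingEnd ℂ) a * x‖ ^ 2 ≤ 4 := by
    have : ‖1 - (starRingEnd ℂ) a * x‖ ≤ 2 := by
      calc ‖1 - (starRingEnd ℂ) a * x‖ ≤ ‖(1 : ℂ)‖ + ‖(starRingEnd ℂ) a * x‖ := norm_sub_le _ _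
        _ ≤ 2 := by
          rw [norm_one, norm_mul, RCLike.norm_conj]
          nlinarith [norm_nonneg a, norm_nonneg x]
    nlinarith [hq]
  have ha' : 0 ≤ 1 - ‖a‖ ^ 2 := by nlinarith [norm_nonneg a]
  have hx' : 0 ≤ 1 - ‖x‖ ^ 2 := by nlinarith [norm_nonneg x]
  have h5 : (1 - ‖a‖ ^ 2) * (1 - ‖x‖ ^ 2) / 4 ≤ 1 - ‖T a x‖ ^ 2 := by
    rw [hr]
    apply div_le_div_of_nonneg_left (mul_nonneg ha' hx') (by positivity) hq2
  rw [h1]
  linarith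

/-- distances between `n`-th roots of unity. -/
theorem root_sep (n : ℕ) (om : ℂ) (hom : IsPrimitiveRoot om n) :
    ∃ s > (0 : ℝ), ∀ i < n, ∀ j < n, i ≠ j → s ≤ ‖om ^ i - om ^ j‖ := by
  classical
  by_cases hP : ((Finset.range n ×ˢ Finset.range n).filter (fun p => p.1 ≠ p.2)).Nonempty
  · obtain ⟨p, hp, hmin⟩ := Finset.exists_min_image _ (fun p : ℕ × ℕ => ‖om ^ p.1 - om ^ p.2‖) hP
    simp only [Finset.mem_filter, Finset.mem_product, Finset.mem_range] at hp hmin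
    refine ⟨‖om ^ p.1 - om ^ p.2‖, ?_, ?_⟩
    · apply norm_pos_iff.mpr
      rw [sub_ne_zero]
      intro h
      exact hp.2 (hom.pow_inj hp.1.1 hp.1.2 h)
    · intro i hi j hj hij
      exact hmin (i, j) ⟨⟨hi, hj⟩, hij⟩
  · refine ⟨1, one_pos, ?_⟩
    intro i hi j hj hij
    exfalso
    apply hP
    exact ⟨(i, j), by simp [hi, hj, hij]⟩

/-- OTH: the preimages which are not the nearest one. -/
theorem OTH (n : ℕ) (hn : 0 < n) (om : ℂ) (hom : IsPrimitiveRoot om n) : ∃ C > (0 : ℝ), ∀ x ∈ UD, ∀ e ∈ UD,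
    1 / 2 ≤ ‖x‖ → ∃ i₀ < n, ∀ i < n, i ≠ i₀ → x ≠ om ^ i * e ∧
      -Real.log ‖T (om ^ i * e) x‖ ≤ C * (1 - ‖x‖ ^ 2) * (1 - ‖e‖ ^ 2) := by
  obtain ⟨s, hs, hsep⟩ := root_sep n om hom
  set d : ℝ := min (1 / 4) (s / 8) with hd
  have hdpos : 0 < d := by positivity
  refine ⟨1 / (2 * d ^ 2), by positivity, ?_⟩
  intro x hx e he hx2
  have hx1 : ‖x‖ < 1 := HY.MOB_mem.mp hx
  have he1 : ‖e‖ < 1 := HY.MOB_mem.mp he
  have hnorm : ∀ i : ℕ, ‖om ^ i * e‖ = ‖e‖ := by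
    intro i
    rw [norm_mul, norm_pow, norm_om n hn om hom, one_pow, one_mul]
  obtain ⟨i₀, hi₀, hmin⟩ := Finset.exists_min_image (Finset.range n) (fun i => ‖x - om ^ i * e‖)
    ⟨0, Finset.mem_range.mpr hn⟩
  rw [Finset.mem_range] at hi₀
  refine ⟨i₀, hi₀, ?_⟩
  intro i hi hne
  have hdist : d ≤ ‖x - om ^ i * e‖ := by
    by_cases hesm : ‖e‖ ≤ 1 / 4
    · have h1 : ‖x‖ - ‖om ^ i * e‖ ≤ ‖x - om ^ i * e‖ := norm_sub_norm_le _ _
      rw [hnorm] at h1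
      have : d ≤ 1 / 4 := min_le_left _ _
      linarith
    · push Not at hesm
      have h1 := hmin i (Finset.mem_range.mpr hi)
      have h2 := hsep i hi i₀ hi₀ hne
      have h3 : ‖om ^ i * e - om ^ i₀ * e‖ ≤ ‖x - om ^ i₀ * e‖ + ‖x - om ^ i * e‖ := by
        have : om ^ i * e - om ^ i₀ * e = (x - om ^ i₀ * e) - (x - om ^ i * e) := by ring
        rw [this]
        exact norm_sub_le _ _
      rw [← sub_mul, norm_mul] at h3
      have h4 : s * (1 / 4) ≤ ‖om ^ i - om ^ i₀‖ * ‖e‖ :=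
        mul_le_mul h2 hesm.le (by norm_num) (norm_nonneg _)
      have : d ≤ s / 8 := min_le_right _ _
      linarith
  have hne' : x ≠ om ^ i * e := by
    intro h
    rw [h, sub_self, norm_zero] at hdist
    linarith
  refine ⟨hne', ?_⟩
  have h1 := green_le (om ^ i * e) x (by rw [hnorm]; exact he1) hx1 hne'
  rw [hnorm] at h1
  have ha' : 0 ≤ 1 - ‖e‖ ^ 2 := by nlinarith [norm_nonneg e]
  have hx' : 0 ≤ 1 - ‖x‖ ^ 2 := by nlinarith [norm_nonneg x]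
  calc -Real.log ‖T (om ^ i * e) x‖ ≤ _ := h1
    _ ≤ (1 - ‖e‖ ^ 2) * (1 - ‖x‖ ^ 2) / (2 * d ^ 2) := by
        apply div_le_div_of_nonneg_left (mul_nonneg ha' hx') (by positivity)
        have : d ^ 2 ≤ ‖x - om ^ i * e‖ ^ 2 := by
          apply pow_le_pow_left₀ hdpos.le hdist
        linarith
    _ = 1 / (2 * d ^ 2) * (1 - ‖x‖ ^ 2) * (1 - ‖e‖ ^ 2) := by ring

end MMP
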